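import Mathlib
import Pool.Agent.Q78.SpecialAlpha

/-!
# MP_919dc2_an : periods of orbits inside a special alpha-limit set
-/

namespace Pool.Agent.Results.MP_919dc2_an.PeriodThreeInSpecialAlpha

open Set Filter Topology Function

/-- `xs` is a backward orbit branch of `x`. -/
def IsBackwardBranch (f : Icc (0 : ℝ) 1 → Icc (0 : ℝ) 1) (x : Icc (0 : ℝ) 1)
    (xs : ℕ → Icc (0 : ℝ) 1) : Prop :=
  xs 0 = x ∧ ∀ k, f (xs (k + 1)) = xs k

/-- The special alpha-limit set: all limits of subsequences of backward orbit branches. -/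
def specialAlpha (f : Icc (0 : ℝ) 1 → Icc (0 : ℝ) 1) (x : Icc (0 : ℝ) 1) :
    Set (Icc (0 : ℝ) 1) :=
  {y | ∃ xs, IsBackwardBranch f x xs ∧
    ∃ φ : ℕ → ℕ, StrictMono φ ∧ Tendsto (fun j => xs (φ j)) atTop (𝓝 y)}

/-- `S` contains a periodic orbit of period `n`: all points of the orbit of some point `p` of
least period `n` lie in `S`. -/
def ContainsPeriodicOrbit (f : Icc (0 : ℝ) 1 → Icc (0 : ℝ) 1) (S : Set (Icc (0 : ℝ) 1))
    (n : ℕ) : Prop :=
  ∃ p, (f^[n] p = p ∧ ∀ m, 1 ≤ m → m < n → f^[m] p ≠ p) ∧ ∀ i < n, f^[i] p ∈ S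

variable {f : Icc (0 : ℝ) 1 → Icc (0 : ℝ) 1}

/-- Filling in a branch of an iterate. -/
theorem branch_fill (hf : Continuous f) {N : ℕ} (hN : 1 ≤ N) {y q : Icc (0 : ℝ) 1}
    (ys : ℕ → Icc (0 : ℝ) 1) (h0 : ys 0 = y) (hs : ∀ j, f^[N] (ys (j + 1)) = ys j)
    (hq : Tendsto ys atTop (𝓝 q)) : ∀ i, f^[i] q ∈ specialAlpha f y := by
  have hback : ∀ t j, f^[N * t] (ys (j + t)) = ys j := by
    intro t
    induction t with
    | zero => intro j; simp
    | succ t ih =>
      intro j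
      rw [Nat.mul_succ, iterate_add_apply, ← add_assoc, hs, ih]
  have hfix : f^[N] q = q := by
    have h1 : Tendsto (fun j => f^[N] (ys (j + 1))) atTop (𝓝 (f^[N] q)) :=
      ((hf.iterate N).tendsto q).comp (hq.comp (tendsto_add_atTop_nat 1))
    have h2 : Tendsto (fun j => f^[N] (ys (j + 1))) atTop (𝓝 q) := by
      simp only [hs]; exact hq
    exact tendsto_nhds_unique h1 h2
  let zs : ℕ → Icc (0 : ℝ) 1 := fun m => f^[N * m - m] (ys m)
  have hz : ∀ m, f (zs (m + 1)) = zs m := by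
    intro m
    show f (f^[N * (m + 1) - (m + 1)] (ys (m + 1))) = f^[N * m - m] (ys m)
    rw [← iterate_succ_apply' f, ← hs m, ← iterate_add_apply]
    congr 1
    have : m ≤ N * m := Nat.le_mul_of_pos_left m (by omega)
    rw [Nat.mul_succ]
    omega
  have hzm : ∀ j, zs (N * j) = ys j := by
    intro j
    show f^[N * (N * j) - N * j] (ys (N * j)) = ys j
    have hle : j ≤ N * j := Nat.le_mul_of_pos_left j (by omega)
    have h := hback (N * j - j) j
    rw [Nat.add_sub_cancel' hle, Nat.mul_sub] at h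
    exact h
  have hz' : ∀ i m, f^[i] (zs (m + i)) = zs m := by
    intro i
    induction i with
    | zero => intro m; rfl
    | succ i ih =>
      intro m
      rw [iterate_succ_apply, ← add_assoc, hz, ih]
  have key : ∀ i < N, f^[i] q ∈ specialAlpha f y := by
    intro i hi
    refine ⟨zs, ⟨by simp [zs, h0], hz⟩, fun j => N * (j + 1) - i, ?_, ?_⟩
    · intro a b hab
      show N * (a + 1) - i < N * (b + 1) - i
      have h1 : N * (a + 1) < N * (b + 1) := Nat.mul_lt_mul_of_pos_left (by omega) (by omega)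
      have h2 : N ≤ N * (a + 1) := Nat.le_mul_of_pos_right N (by omega)
      omega
    · have e : ∀ j, zs (N * (j + 1) - i) = f^[i] (ys (j + 1)) := by
        intro j
        have h2 : N ≤ N * (j + 1) := Nat.le_mul_of_pos_right N (by omega)
        rw [← hz' i, ← hzm (j + 1)]
        congr 2
        omega
      simp only [e]
      exact ((hf.iterate i).tendsto q).comp (hq.comp (tendsto_add_atTop_nat 1))
  intro i
  have hper : IsPeriodicPt f N q := hfix
  rw [← hper.iterate_mod_apply i]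
  exact key _ (Nat.mod_lt _ (by omega))

/-- Points of a branch have a smaller special alpha-limit set. -/
theorem specialAlpha_subset {x : Icc (0 : ℝ) 1} (xs : ℕ → Icc (0 : ℝ) 1)
    (hxs : IsBackwardBranch f x xs) (k : ℕ) : specialAlpha f (xs k) ⊆ specialAlpha f x := by
  rintro z ⟨ys, ⟨h0, hs⟩, φ, hφ, hlim⟩
  refine ⟨fun m => if m < k then xs m else ys (m - k), ⟨?_, ?_⟩, fun j => φ j + k, ?_, ?_⟩
  · by_cases hk : 0 < k
    · simp [hk, hxs.1]
    · have : k = 0 := by omega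
      subst this
      simp [h0, hxs.1]
  · intro m
    rcases lt_trichotomy (m + 1) k with h | h | h
    · have h' : m < k := by omega
      simp [h, h', hxs.2]
    · have h' : m < k := by omega
      have h'' : ¬ (m + 1 < k) := by omega
      have h3 : m + 1 - k = 0 := by omega
      simp only [h', h'', if_true, if_false, h3, h0]
      rw [← h, hxs.2]
    · have h' : ¬ m < k := by omega
      have h'' : ¬ (m + 1 < k) := by omega
      have h3 : m + 1 - k = (m - k) + 1 := by omega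
      simp only [h', h'', if_false, h3, hs]
  · intro a b hab
    exact Nat.add_lt_add_right (hφ hab) k
  · have e : ∀ j, (if φ j + k < k then xs (φ j + k) else ys (φ j + k - k)) = ys (φ j) := by
      intro j
      have h' : ¬ (φ j + k < k) := by omega
      simp [h']
    simp only [e]
    exact hlim

/-- The sorted 3-cycle. -/
theorem sorted_cycle {S : Set (Icc (0 : ℝ) 1)} (h : ContainsPeriodicOrbit f S 3) :
    ∃ p1 p2 p3 : Icc (0 : ℝ) 1, p1 < p2 ∧ p2 < p3 ∧ p2 ∈ S ∧
      ((f p1 = p2 ∧ f p2 = p3 ∧ f p3 = p1) ∨ (f p1 = p3 ∧ f p2 = p1 ∧ f p3 = p2)) := by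
  obtain ⟨p, ⟨h3, hm⟩, hS⟩ := h
  have a1 : f p ≠ p := hm 1 le_rfl (by norm_num)
  have a2 : f (f p) ≠ p := hm 2 (by norm_num) (by norm_num)
  have a3 : f (f (f p)) = p := h3
  have a4 : f (f p) ≠ f p := by
    intro hcon
    apply a2
    have := congrArg f hcon
    rw [a3] at this
    rw [← this]
  have s0 : p ∈ S := hS 0 (by norm_num)
  have s1 : f p ∈ S := hS 1 (by norm_num)
  have s2 : f (f p) ∈ S := hS 2 (by norm_num)
  rcases lt_or_gt_of_ne a1 with h1 | h1 <;> rcases lt_or_gt_of_ne a2 with h2 | h2 <;>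
    rcases lt_or_gt_of_ne a4 with h4 | h4
  · exact ⟨f (f p), f p, p, h4, h1, s1, Or.inr ⟨a3, rfl, rfl⟩⟩
  · exact ⟨f p, f (f p), p, h4, h2, s2, Or.inl ⟨rfl, a3, rfl⟩⟩
  · exact absurd (h1.trans h2) (not_lt.2 h4.le)
  · exact ⟨f p, p, f (f p), h1, h2, s0, Or.inr ⟨rfl, rfl, a3⟩⟩
  · exact ⟨f (f p), p, f p, h2, h1, s0, Or.inl ⟨a3, rfl, rfl⟩⟩
  · exact absurd (h1.trans h4) (not_lt.2 h2.le)
  · exact ⟨p, f (f p), f p, h2, h4, s2, Or.inr ⟨rfl, a3, rfl⟩⟩
  · exact ⟨p, f p, f (f p), h1, h4, s1, Or.inl ⟨rfl, rfl, a3⟩⟩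

/-- For every continuous `f : [0,1] → [0,1]` and every `x`: if the special alpha-limit set of `x`
contains a periodic orbit of period `3`, then for each `n ≥ 1` it contains a periodic orbit of
period `n` or a periodic orbit of period `2n`. -/
theorem result (f : Icc (0 : ℝ) 1 → Icc (0 : ℝ) 1) (hf : Continuous f) (x : Icc (0 : ℝ) 1)
    (h3 : ContainsPeriodicOrbit f (specialAlpha f x) 3) (n : ℕ) (hn : 1 ≤ n) :
    ContainsPeriodicOrbit f (specialAlpha f x) n ∨
      ContainsPeriodicOrbit f (specialAlpha f x) (2 * n) := by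
  obtain ⟨p1, p2, p3, h12, h23, hp2, hcyc⟩ := sorted_cycle h3
  -- extension to the line
  let F : ℝ → ℝ := fun t => (f (projIcc 0 1 zero_le_one t) : ℝ)
  have hF : Continuous F := continuous_subtype_val.comp (hf.comp continuous_projIcc)
  have hFf : ∀ t : Icc (0 : ℝ) 1, F t = f t := by
    intro t
    show (f (projIcc 0 1 zero_le_one (t : ℝ)) : ℝ) = f t
    rw [projIcc_val]
  have hFk : ∀ k, ∀ t : Icc (0 : ℝ) 1, F^[k] t = f^[k] t := by
    intro k
    induction k with
    | zero => intro t; rfl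
    | succ k ih => intro t; rw [iterate_succ_apply, iterate_succ_apply, hFf, ih]
  have hrange : ∀ k, 1 ≤ k → ∀ t : ℝ, F^[k] t ∈ Icc (0 : ℝ) 1 := by
    intro k hk t
    obtain ⟨k, rfl⟩ : ∃ m, k = m + 1 := ⟨k - 1, by omega⟩
    rw [iterate_succ_apply']
    exact (f _).2
  have core : ∃ q, (minimalPeriod F q = n ∨ minimalPeriod F q = 2 * n) ∧
      ∃ a b : ℝ, a < p2 ∧ (p2 : ℝ) < b ∧ ∀ y ∈ Ioo a b, ∃ ys : ℕ → ℝ, ys 0 = y ∧
        (∀ j, F^[2 * n] (ys (j + 1)) = ys j) ∧ Tendsto ys atTop (𝓝 q) := by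
    rcases hcyc with ⟨e1, e2, e3⟩ | ⟨e1, e2, e3⟩
    · exact Q78.SpecialAlpha.core_pos F hF (p1 := p1) (p2 := p2) (p3 := p3) h12 h23
        (by rw [hFf, e1]) (by rw [hFf, e2]) (by rw [hFf, e3]) n hn
    · exact Q78.SpecialAlpha.core_neg F hF (p1 := p1) (p2 := p2) (p3 := p3) h12 h23
        (by rw [hFf, e1]) (by rw [hFf, e2]) (by rw [hFf, e3]) n hn
  obtain ⟨q, hq, a, b, ha, hb, hab⟩ := core
  -- `q` lies in `[0,1]`
  have hqper : F^[2 * n] q = q := by
    have h := isPeriodicPt_minimalPeriod F q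
    rcases hq with hq | hq
    · rw [hq] at h
      exact (h.mul_const 2 |> fun h => by rwa [mul_comm] at h)
    · rw [hq] at h
      exact h
  have hqI : q ∈ Icc (0 : ℝ) 1 := by
    rw [← hqper]
    exact hrange _ (by omega) _
  -- the branch of `x` enters `(a,b)`
  obtain ⟨xs, hxs, φ, hφ, hlim⟩ := hp2
  have hev : ∀ᶠ j in atTop, ((xs (φ j) : Icc (0 : ℝ) 1) : ℝ) ∈ Ioo a b := by
    have : Tendsto (fun j => ((xs (φ j) : Icc (0 : ℝ) 1) : ℝ)) atTop (𝓝 (p2 : ℝ)) :=
      (continuous_subtype_val.tendsto p2).comp hlim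
    exact this.eventually (Ioo_mem_nhds ha hb)
  obtain ⟨j, hj⟩ := hev.exists
  obtain ⟨ys, hy0, hys, hylim⟩ := hab _ hj
  have hysI : ∀ i, ys i ∈ Icc (0 : ℝ) 1 := by
    intro i
    rw [← hys i]
    exact hrange _ (by omega) _
  have hmem : ∀ i, f^[i] ⟨q, hqI⟩ ∈ specialAlpha f (xs (φ j)) := by
    refine branch_fill hf (N := 2 * n) (by omega) (fun i => ⟨ys i, hysI i⟩) ?_ ?_ ?_
    · exact Subtype.ext hy0
    · intro i
      apply Subtype.ext
      rw [← hFk]
      exact hys i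
    · rw [tendsto_subtype_rng]
      exact hylim
  have hmem' : ∀ i, f^[i] ⟨q, hqI⟩ ∈ specialAlpha f x := fun i =>
    specialAlpha_subset xs hxs _ (hmem i)
  have hfin : ∀ m, minimalPeriod F q = m →
      ContainsPeriodicOrbit f (specialAlpha f x) m := by
    intro m hm
    refine ⟨⟨q, hqI⟩, ⟨?_, ?_⟩, fun i _ => hmem' i⟩
    · apply Subtype.ext
      rw [← hFk, ← hm]
      exact iterate_minimalPeriod
    · intro i hi him hcon
      have h1 : F^[i] q = q := by
        have := hFk i ⟨q, hqI⟩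
        rw [hcon] at this
        exact this
      have h2 : IsPeriodicPt F i q := h1
      have := h2.minimalPeriod_le (by omega)
      omega
  rcases hq with hq | hq
  · exact Or.inl (hfin _ hq)
  · exact Or.inr (hfin _ hq)

end Pool.Agent.Results.MP_919dc2_an.PeriodThreeInSpecialAlpha
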